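import Mathlib

/-!
# MP_a8308c: a weakly mixing system with a transitive point without transitive partner

The system is the orbit closure, under the shift of `{0,1}^ℕ`, of the indicator of the set `A` of all
sums of digits `d_k ∈ {0, a_k, a_k + D_k, a_k + 2 D_k + s_k}`, where `a_k = 100 M_k`,
`D_k = 10000 M_k`, `M_k = 10000 ^ k` and `s` takes every natural value infinitely often, `s_k ≤ k`.
-/

set_option autoImplicit false
open Filter Topology

namespace Pool.Agent.Results.MP_a8308c_an.NoPartner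

/-! ## The notions of the problem -/

/-- `x` is a transitive point of `T`. -/
def IsTransitivePoint {X : Type} [TopologicalSpace X] (T : X → X) (x : X) : Prop :=
  Dense (Set.range fun n : ℕ => T^[n] x)

/-- `T` is transitive. -/
def IsTransitive {X : Type} [TopologicalSpace X] (T : X → X) : Prop :=
  ∃ x : X, IsTransitivePoint T x

/-- `T` is weakly mixing. -/
def IsWeaklyMixing {X : Type} [TopologicalSpace X] (T : X → X) : Prop :=
  IsTransitive (Prod.map T T)

/-! ## The set -/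

/-- the scale -/
def M (k : ℕ) : ℕ := 10000 ^ k

/-- the small shifts -/
def s (k : ℕ) : ℕ := (Nat.unpair k).1

lemma M_pos (k : ℕ) : 0 < M k := by unfold M; positivity

lemma M_succ (k : ℕ) : M (k + 1) = 10000 * M k := by unfold M; rw [pow_succ]; ring

lemma M_mono {k l : ℕ} (h : k ≤ l) : M k ≤ M l := Nat.pow_le_pow_right (by norm_num) h

lemma lt_M (k : ℕ) : k < M k := Nat.lt_pow_self (by norm_num)

lemma s_le (k : ℕ) : s k ≤ M k := (Nat.unpair_left_le k).trans (lt_M k).le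

lemma s_inf (m N : ℕ) : ∃ k, N ≤ k ∧ s k = m :=
  ⟨Nat.pair m N, Nat.right_le_pair m N, by simp [s]⟩

/-- the digits of level `k` -/
def Dig (k d : ℕ) : Prop :=
  d = 0 ∨ d = 100 * M k ∨ d = 100 * M k + 10000 * M k ∨ d = 100 * M k + 20000 * M k + s k

/-- sums of digits of levels `k, ..., k + l - 1` -/
def BB (k : ℕ) : ℕ → ℕ → Prop
  | 0, n => n = 0
  | (l + 1), n => ∃ d C, Dig (k + l) d ∧ BB k l C ∧ n = d + C

lemma BB_zero_mem (k l : ℕ) : BB k l 0 := by
  induction l with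
  | zero => rfl
  | succ l ih => exact ⟨0, 0, Or.inl rfl, ih, rfl⟩

lemma BB_succ {k l n : ℕ} (h : BB k l n) : BB k (l + 1) n := ⟨0, n, Or.inl rfl, h, by omega⟩

lemma BB_mono {k l l' n : ℕ} (hl : l ≤ l') (h : BB k l n) : BB k l' n := by
  induction l', hl using Nat.le_induction with
  | base => exact h
  | succ m _ ih => exact BB_succ ih

lemma BB_lt {k n : ℕ} (h : BB 0 k n) : n < 3 * M k := by
  induction k generalizing n with
  | zero => rw [show n = 0 from h]; have := M_pos 0; omega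
  | succ k ih =>
    obtain ⟨d, C, hd, hC, rfl⟩ := h
    have h1 := ih hC
    have h2 := s_le k
    rw [M_succ]
    rw [Nat.zero_add] at hd
    rcases hd with rfl | rfl | rfl | rfl <;> omega

lemma BB_join {k l C α : ℕ} (hC : BB k l C) (hα : BB 0 k α) : BB 0 (k + l) (C + α) := by
  induction l generalizing C with
  | zero => rw [show C = 0 from hC]; simpa using hα
  | succ l ih =>
    obtain ⟨d, C', hd, hC', rfl⟩ := hC
    exact ⟨d, C' + α, by simpa using hd, ih hC', by ring⟩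

lemma BB_split {k l n : ℕ} (h : BB 0 (k + l) n) : ∃ C α, BB k l C ∧ BB 0 k α ∧ n = C + α := by
  induction l generalizing n with
  | zero => exact ⟨0, n, rfl, h, by omega⟩
  | succ l ih =>
    obtain ⟨d, C', hd, hC', rfl⟩ := h
    obtain ⟨C, α, hC, hα, rfl⟩ := ih hC'
    exact ⟨d + C, α, ⟨d, C, by simpa using hd, hC, rfl⟩, hα, by ring⟩

lemma BB_up_lt {k l C : ℕ} (hC : BB k l C) : C < 3 * M (k + l) := by
  have := BB_lt (BB_join hC (BB_zero_mem 0 k))
  omega

/-- small elements have only small digits -/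
lemma BB_restrict {k l n : ℕ} (h : BB 0 (k + l) n) (hn : n < 100 * M k) : BB 0 k n := by
  induction l with
  | zero => exact h
  | succ l ih =>
    obtain ⟨d, C', hd, hC', rfl⟩ := h
    rw [Nat.zero_add] at hd
    have hm := M_mono (Nat.le_add_right k l)
    change Dig (k + l) d at hd
    have h0 : d = 0 := by
      rcases hd with h | h | h | h <;> omega
    subst h0
    rw [Nat.zero_add]
    rw [Nat.zero_add] at ih hn
    exact ih hC'

/-- membership in `A` -/
def InA (n : ℕ) : Prop := ∃ k, BB 0 k n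

lemma inA_iff {k n : ℕ} (hn : n < 100 * M k) : InA n ↔ BB 0 k n := by
  constructor
  · rintro ⟨l, hl⟩
    exact BB_restrict (BB_mono (Nat.le_add_left l k) hl) hn
  · exact fun h => ⟨k, h⟩

lemma inA_level (n k : ℕ) : ∃ l, InA n ↔ BB 0 (k + l) n := by
  refine ⟨n, inA_iff ?_⟩
  have := lt_M (k + n)
  omega

lemma inA_zero : InA 0 := ⟨0, rfl⟩

/-- The pattern at a digit. -/
lemma occ {k P i : ℕ} (hP : Dig k P) (hi : i < 100 * M k) : InA (P + i) ↔ InA i := by
  have h2 := s_le k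
  have hlt : P + i < 100 * M (k + 1) := by
    rw [M_succ]
    rcases hP with rfl | rfl | rfl | rfl <;> omega
  rw [inA_iff hlt, inA_iff hi]
  constructor
  · rintro ⟨d, C, hd, hC, he⟩
    rw [Nat.zero_add] at hd
    have h1 := BB_lt hC
    have : C = i := by
      rcases hP with rfl | rfl | rfl | rfl <;> rcases hd with rfl | rfl | rfl | rfl <;> omega
    rwa [← this]
  · intro h
    exact ⟨P, i, by simpa using hP, h, rfl⟩

/-- The key lemma. -/
lemma key {k : ℕ} (l : ℕ) : ∀ {p₀ C₁ C₂ C₃ α₁ α₂ α₃ : ℕ}, BB 0 k p₀ → BB 0 k α₁ → BB 0 k α₂ →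
    BB 0 k α₃ → BB k l C₁ → BB k l C₂ → BB k l C₃ →
    p₀ + (C₃ + α₃) = (C₁ + α₁) + (C₂ + α₂) → C₃ = C₁ + C₂ := by
  induction l with
  | zero =>
    intro p₀ C₁ C₂ C₃ α₁ α₂ α₃ _ _ _ _ h1 h2 h3 _
    rw [show C₁ = 0 from h1, show C₂ = 0 from h2, show C₃ = 0 from h3]
  | succ l ih =>
    intro p₀ C₁ C₂ C₃ α₁ α₂ α₃ hp h1 h2 h3 hC1 hC2 hC3 he
    obtain ⟨d₁, E₁, hd1, hE1, rfl⟩ := hC1
    obtain ⟨d₂, E₂, hd2, hE2, rfl⟩ := hC2
    obtain ⟨d₃, E₃, hd3, hE3, rfl⟩ := hC3
    have b0 := BB_lt (BB_mono (Nat.le_add_right k l) hp)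
    have b1 := BB_lt (BB_join hE1 h1)
    have b2 := BB_lt (BB_join hE2 h2)
    have b3 := BB_lt (BB_join hE3 h3)
    have hs := s_le (k + l)
    have hd : d₃ = d₁ + d₂ := by
      rcases hd1 with rfl | rfl | rfl | rfl <;> rcases hd2 with rfl | rfl | rfl | rfl <;>
        rcases hd3 with rfl | rfl | rfl | rfl <;> omega
    have := ih (p₀ := p₀) hp h1 h2 h3 hE1 hE2 hE3 (by omega)
    omega

/-- Block positions are far apart. -/
lemma sep {k : ℕ} (l : ℕ) : ∀ {C C' : ℕ}, BB k l C → BB k l C' → C' < C + 50 * M k →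
    C < C' + 50 * M k → C = C' := by
  induction l with
  | zero => intro C C' h h' _ _; rw [show C = 0 from h, show C' = 0 from h']
  | succ l ih =>
    intro C C' h h' h1 h2
    obtain ⟨d, E, hd, hE, rfl⟩ := h
    obtain ⟨d', E', hd', hE', rfl⟩ := h'
    have b1 := BB_up_lt hE
    have b2 := BB_up_lt hE'
    have hs := s_le (k + l)
    have hm := M_mono (Nat.le_add_right k l)
    have hdd : d = d' := by
      rcases hd with rfl | rfl | rfl | rfl <;> rcases hd' with rfl | rfl | rfl | rfl <;> omega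
    subst hdd
    rw [ih hE hE' (by omega) (by omega)]

/-- the largest element below level `k` -/
def top : ℕ → ℕ
  | 0 => 0
  | (k + 1) => (100 * M k + 20000 * M k + s k) + top k

lemma top_mem (k : ℕ) : BB 0 k (top k) := by
  induction k with
  | zero => rfl
  | succ k ih => exact ⟨_, _, by right; right; right; simp, ih, rfl⟩

lemma le_top {k n : ℕ} (h : BB 0 k n) : n ≤ top k := by
  induction k generalizing n with
  | zero => rw [show n = 0 from h]; exact Nat.zero_le _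
  | succ k ih =>
    obtain ⟨d, C, hd, hC, rfl⟩ := h
    have := ih hC
    rw [Nat.zero_add] at hd
    simp only [top]
    rcases hd with rfl | rfl | rfl | rfl <;> omega

/-- An occurrence of the initial block is a block position. -/
lemma aligned {k n : ℕ} (h : ∀ i < 3 * M k, InA i → InA (n + i)) : ∃ l, BB k l n := by
  have hM := M_pos k
  have h0 : InA (n + 0) := h 0 (by omega) inA_zero
  have ht : top k < 3 * M k := BB_lt (top_mem k)
  have h1 : InA (n + top k) := h (top k) ht ⟨k, top_mem k⟩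
  obtain ⟨l₁, hl₁⟩ := h0
  obtain ⟨l₂, hl₂⟩ := h1
  obtain ⟨C, α, hC, hα, he⟩ := BB_split (k := k) (l := max l₁ l₂)
    (BB_mono (le_trans (le_max_left l₁ l₂) (Nat.le_add_left _ k)) hl₁)
  obtain ⟨C', α', hC', hα', he'⟩ := BB_split (k := k) (l := max l₁ l₂)
    (BB_mono (le_trans (le_max_right l₁ l₂) (Nat.le_add_left _ k)) hl₂)
  have b1 := BB_lt hα
  have b2 := BB_lt hα'
  have b3 := le_top hα'
  have hCC : C = C' := sep _ hC hC' (by omega) (by omega)
  refine ⟨max l₁ l₂, ?_⟩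
  have : n = C := by omega
  rwa [this]

/-! ## The space -/

/-- one-sided binary sequences -/
def Y : Type := ℕ → Bool

noncomputable instance : MetricSpace Y := PiNat.metricSpace (E := fun _ => Bool)

instance : CompactSpace Y := inferInstanceAs (CompactSpace (ℕ → Bool))

lemma dist_le_iff (x y : Y) (m : ℕ) : dist x y ≤ (1 / 2) ^ m ↔ ∀ i < m, x i = y i := by
  have := PiNat.mem_cylinder_iff_dist_le (E := fun _ => Bool) (x := y) (y := x) (n := m)
  exact this.symm.trans PiNat.mem_cylinder_iff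

lemma continuous_eval (i : ℕ) : Continuous (fun x : Y => x i) :=
  continuous_apply (A := fun _ : ℕ => Bool) i

/-- the shift by `n` -/
def sh (n : ℕ) (a : Y) : Y := fun i => a (n + i)

lemma continuous_sh (n : ℕ) : Continuous (sh n) :=
  continuous_pi (X := ℕ → Bool) (A := fun _ : ℕ => Bool)
    (fun i => continuous_apply (A := fun _ : ℕ => Bool) (n + i))

open Classical in
/-- the indicator of `A` -/
noncomputable def w : Y := fun n => decide (InA n)

lemma w_true {n : ℕ} : w n = true ↔ InA n := by simp [w]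

lemma w_eq {m n : ℕ} : w m = w n ↔ (InA m ↔ InA n) := by simp [w]

/-- the orbit closure -/
def K : Set Y := closure (Set.range fun n : ℕ => sh n w)

/-- the space -/
abbrev X : Type := K

lemma mapsTo_K : Set.MapsTo (sh 1) K K := by
  intro x hx
  have h : sh 1 '' closure (Set.range fun n : ℕ => sh n w) ⊆
      closure (sh 1 '' (Set.range fun n : ℕ => sh n w)) :=
    image_closure_subset_closure_image (continuous_sh 1)
  refine closure_mono ?_ (h ⟨x, hx, rfl⟩)
  rintro _ ⟨_, ⟨n, rfl⟩, rfl⟩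
  refine ⟨n + 1, ?_⟩
  funext i
  show w (n + 1 + i) = w (n + (1 + i))
  rw [add_assoc]

instance : CompactSpace X := isCompact_iff_compactSpace.1 (isClosed_closure.isCompact)

/-- the map -/
noncomputable def T : X → X := mapsTo_K.restrict (sh 1) K K

lemma T_val (x : X) : (T x : Y) = sh 1 x := rfl

lemma continuous_T : Continuous T :=
  ((continuous_sh 1).comp continuous_subtype_val).subtype_mk _

lemma T_iter (n : ℕ) (x : X) (i : ℕ) : ((T^[n] x : X) : Y) i = x.1 (n + i) := by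
  induction n generalizing i with
  | zero => simp
  | succ n ih =>
    rw [Function.iterate_succ_apply', T_val]
    show ((T^[n] x : X) : Y) (1 + i) = _
    rw [ih, add_assoc]

/-- the transitive point -/
noncomputable def x₀ : X := ⟨w, subset_closure ⟨0, by funext i; simp [sh]⟩⟩

lemma T_iter_x₀ (n i : ℕ) : ((T^[n] x₀ : X) : Y) i = w (n + i) := T_iter n x₀ i

/-- basic neighbourhoods -/
lemma nbhd (U : Set X) (hU : IsOpen U) (z : X) (hz : z ∈ U) :
    ∃ m : ℕ, ∀ z' : X, (∀ i < m, z'.1 i = z.1 i) → z' ∈ U := by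
  obtain ⟨ε, hε, hball⟩ := Metric.isOpen_iff.1 hU z hz
  obtain ⟨m, hm⟩ := exists_pow_lt_of_lt_one hε (by norm_num : (1 / 2 : ℝ) < 1)
  refine ⟨m, fun z' hz' => hball ?_⟩
  rw [Metric.mem_ball]
  refine lt_of_le_of_lt ?_ hm
  show dist (z' : Y) (z : Y) ≤ _
  exact (dist_le_iff _ _ _).2 hz'

/-- every point of `X` is approximated by shifts of `w` -/
lemma approx (y : X) (N : ℕ) : ∃ m : ℕ, ∀ i < N, w (m + i) = y.1 i := by
  obtain ⟨_, ⟨m, rfl⟩, hm⟩ := Metric.mem_closure_iff.1 y.2 ((1 / 2 : ℝ) ^ N) (by positivity)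
  refine ⟨m, fun i hi => ?_⟩
  exact ((dist_le_iff _ _ _).1 hm.le i hi).symm

/-- The orbit of `x₀` is dense. -/
lemma dense_orbit (U : Set X) (hU : IsOpen U) (hne : U.Nonempty) : ∃ n : ℕ, T^[n] x₀ ∈ U := by
  obtain ⟨x, hx⟩ := hne
  obtain ⟨m, hm⟩ := nbhd U hU x hx
  obtain ⟨n, hn⟩ := approx x m
  refine ⟨n, hm _ fun i hi => ?_⟩
  rw [T_iter_x₀]
  exact hn i hi

/-- `x₀` comes back near itself at the digits -/
lemma return_digit {k P : ℕ} (hP : Dig k P) (i : ℕ) (hi : i < 100 * M k) :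
    ((T^[P] x₀ : X) : Y) i = x₀.1 i := by
  rw [T_iter_x₀]
  exact w_eq.2 (occ hP hi)

lemma surjective_T : Function.Surjective T := by
  have hcl : IsClosed (Set.range T) := (isCompact_range continuous_T).isClosed
  have hx0 : x₀ ∈ Set.range T := by
    rw [← hcl.closure_eq, mem_closure_iff]
    intro U hU hx
    obtain ⟨m, hm⟩ := nbhd U hU x₀ hx
    have hlt := lt_M m
    refine ⟨T^[100 * M m] x₀, hm _ fun i hi =>
      return_digit (k := m) (Or.inr (Or.inl rfl)) i (by omega), ?_⟩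
    obtain ⟨k, hk⟩ := Nat.exists_eq_add_of_le' (show 1 ≤ 100 * M m by omega)
    rw [hk]
    exact ⟨T^[k] x₀, (Function.iterate_succ_apply' T k x₀).symm⟩
  have hall : ∀ n, T^[n] x₀ ∈ Set.range T := by
    intro n
    rcases n with _ | n
    · exact hx0
    · exact ⟨T^[n] x₀, (Function.iterate_succ_apply' T n x₀).symm⟩
  intro x
  by_contra hx
  obtain ⟨n, hn⟩ := dense_orbit (Set.range T)ᶜ hcl.isOpen_compl ⟨x, hx⟩
  exact hn (hall n)

/-- The orbit of `x₀` is not eventually periodic. -/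
lemma injective_orbit {m n : ℕ} (hn : 0 < n) (h : T^[m + n] x₀ = T^[m] x₀) : False := by
  have hper : ∀ i, w (m + n + i) = w (m + i) := fun i => by
    rw [← T_iter_x₀, ← T_iter_x₀, h]
  set k := m + n with hk
  have hlt := lt_M k
  have hP : Dig k (100 * M k) := Or.inr (Or.inl rfl)
  have hper2 : ∀ j, w (100 * M k + j * n) = true := by
    intro j
    induction j with
    | zero => rw [w_true, Nat.zero_mul]; exact (occ hP (i := 0) (by omega)).2 inA_zero
    | succ j ih =>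
      have h1 := hper (100 * M k + j * n - m)
      have e1 : m + n + (100 * M k + j * n - m) = 100 * M k + (j + 1) * n := by
        rw [Nat.add_mul, Nat.one_mul]; omega
      have e2 : m + (100 * M k + j * n - m) = 100 * M k + j * n := by omega
      rw [← hk] at e1
      rw [e1, e2] at h1
      rw [h1]; exact ih
  have h3 := hper2 (3 * M k / n + 1)
  have h4 : 3 * M k < (3 * M k / n + 1) * n := by
    rw [Nat.mul_comm (3 * M k / n + 1) n]; exact Nat.lt_mul_div_succ _ hn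
  have h5 : (3 * M k / n + 1) * n ≤ 3 * M k + n := by
    rw [Nat.add_mul, Nat.one_mul]
    have := Nat.div_mul_le_self (3 * M k) n
    omega
  rw [w_true, occ hP (by omega), inA_iff (k := k) (by omega)] at h3
  have := BB_lt h3
  omega

lemma no_isolated (x : X) : ¬ IsOpen ({x} : Set X) := by
  intro h
  obtain ⟨m, hm⟩ := dense_orbit {x} h ⟨x, rfl⟩
  have hcont : Continuous (T^[m]) := continuous_T.iterate m
  obtain ⟨N, hN⟩ := nbhd ((T^[m]) ⁻¹' {x}) (h.preimage hcont) x₀ hm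
  have hlt := lt_M N
  have h1 := hN (T^[100 * M N] x₀) fun i hi =>
      return_digit (k := N) (Or.inr (Or.inl rfl)) i (by omega)
  have h2 : T^[m] (T^[100 * M N] x₀) = x := h1
  have h3 : T^[m] x₀ = x := hm
  rw [← Function.iterate_add_apply, ← h3] at h2
  exact injective_orbit (by omega) h2

/-- two pairs of open sets are joined at the same time -/
lemma joint (U₁ V₁ U₂ V₂ : Set X) (hU₁ : IsOpen U₁) (hV₁ : IsOpen V₁) (hU₂ : IsOpen U₂)
    (hV₂ : IsOpen V₂) (nU₁ : U₁.Nonempty) (nV₁ : V₁.Nonempty) (nU₂ : U₂.Nonempty)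
    (nV₂ : V₂.Nonempty) :
    ∃ n : ℕ, ∃ a b : X, a ∈ U₁ ∧ T^[n] a ∈ V₁ ∧ b ∈ U₂ ∧ T^[n] b ∈ V₂ := by
  obtain ⟨i₁, h1⟩ := dense_orbit U₁ hU₁ nU₁
  obtain ⟨j₁, h2⟩ := dense_orbit V₁ hV₁ nV₁
  obtain ⟨i₂, h3⟩ := dense_orbit U₂ hU₂ nU₂
  obtain ⟨j₂, h4⟩ := dense_orbit V₂ hV₂ nV₂
  obtain ⟨m₁, hm₁⟩ := nbhd ((T^[i₁]) ⁻¹' U₁) (hU₁.preimage (continuous_T.iterate i₁)) x₀ h1
  obtain ⟨m₂, hm₂⟩ := nbhd ((T^[j₁]) ⁻¹' V₁) (hV₁.preimage (continuous_T.iterate j₁)) x₀ h2
  obtain ⟨m₃, hm₃⟩ := nbhd ((T^[i₂]) ⁻¹' U₂) (hU₂.preimage (continuous_T.iterate i₂)) x₀ h3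
  obtain ⟨m₄, hm₄⟩ := nbhd ((T^[j₂]) ⁻¹' V₂) (hV₂.preimage (continuous_T.iterate j₂)) x₀ h4
  set N := m₁ + m₂ + m₃ + m₄ + i₁ + i₂ + j₁ + j₂ with hN
  rcases le_total (j₁ + i₂) (i₁ + j₂) with hle | hle
  · obtain ⟨k, hk, hs⟩ := s_inf ((i₁ + j₂) - (j₁ + i₂)) N
    have hlt := lt_M k
    have d1 : Dig k (100 * M k) := Or.inr (Or.inl rfl)
    have d2 : Dig k (100 * M k + 10000 * M k) := Or.inr (Or.inr (Or.inl rfl))
    have d3 : Dig k (100 * M k + 20000 * M k + s k) := Or.inr (Or.inr (Or.inr rfl))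
    have e1 := hm₁ (T^[100 * M k + 10000 * M k] x₀) fun i hi => return_digit d2 i (by omega)
    have e2 := hm₂ (T^[100 * M k + 20000 * M k + s k] x₀) fun i hi => return_digit d3 i (by omega)
    have e3 := hm₃ (T^[100 * M k] x₀) fun i hi => return_digit d1 i (by omega)
    have e4 := hm₄ (T^[100 * M k + 10000 * M k] x₀) fun i hi => return_digit d2 i (by omega)
    refine ⟨10000 * M k + j₂ - i₂, _, _, e1, ?_, e3, ?_⟩
    · rw [← Function.iterate_add_apply, ← Function.iterate_add_apply]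
      have e : 10000 * M k + j₂ - i₂ + (i₁ + (100 * M k + 10000 * M k)) =
          j₁ + (100 * M k + 20000 * M k + s k) := by omega
      rw [add_assoc, e, Function.iterate_add_apply]
      exact e2
    · rw [← Function.iterate_add_apply, ← Function.iterate_add_apply]
      have e : 10000 * M k + j₂ - i₂ + (i₂ + 100 * M k) =
          j₂ + (100 * M k + 10000 * M k) := by omega
      rw [add_assoc, e, Function.iterate_add_apply]
      exact e4
  · obtain ⟨k, hk, hs⟩ := s_inf ((j₁ + i₂) - (i₁ + j₂)) N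
    have hlt := lt_M k
    have d1 : Dig k (100 * M k) := Or.inr (Or.inl rfl)
    have d2 : Dig k (100 * M k + 10000 * M k) := Or.inr (Or.inr (Or.inl rfl))
    have d3 : Dig k (100 * M k + 20000 * M k + s k) := Or.inr (Or.inr (Or.inr rfl))
    have e1 := hm₁ (T^[100 * M k] x₀) fun i hi => return_digit d1 i (by omega)
    have e2 := hm₂ (T^[100 * M k + 10000 * M k] x₀) fun i hi => return_digit d2 i (by omega)
    have e3 := hm₃ (T^[100 * M k + 10000 * M k] x₀) fun i hi => return_digit d2 i (by omega)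
    have e4 := hm₄ (T^[100 * M k + 20000 * M k + s k] x₀) fun i hi => return_digit d3 i (by omega)
    refine ⟨10000 * M k + j₁ - i₁, _, _, e1, ?_, e3, ?_⟩
    · rw [← Function.iterate_add_apply, ← Function.iterate_add_apply]
      have e : 10000 * M k + j₁ - i₁ + (i₁ + 100 * M k) =
          j₁ + (100 * M k + 10000 * M k) := by omega
      rw [add_assoc, e, Function.iterate_add_apply]
      exact e2
    · rw [← Function.iterate_add_apply, ← Function.iterate_add_apply]
      have e : 10000 * M k + j₁ - i₁ + (i₂ + (100 * M k + 10000 * M k)) =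
          j₂ + (100 * M k + 20000 * M k + s k) := by omega
      rw [add_assoc, e, Function.iterate_add_apply]
      exact e4

/-- Transitivity through open sets gives a dense orbit. -/
lemma exists_dense_orbit {Z : Type} [TopologicalSpace Z] [SecondCountableTopology Z] [BaireSpace Z]
    [Nonempty Z] (f : Z → Z) (hf : Continuous f)
    (h : ∀ U V : Set Z, IsOpen U → U.Nonempty → IsOpen V → V.Nonempty →
      ∃ n : ℕ, ∃ z ∈ U, f^[n] z ∈ V) : IsTransitive f := by
  have hb := TopologicalSpace.isBasis_countableBasis Z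
  have hc := TopologicalSpace.countable_countableBasis Z
  have hd : Dense (⋂ V ∈ TopologicalSpace.countableBasis Z, ⋃ n : ℕ, (f^[n]) ⁻¹' V) := by
    refine dense_biInter_of_isOpen (fun V hV => ?_) hc (fun V hV => ?_)
    · exact isOpen_iUnion fun n => (hb.isOpen hV).preimage (hf.iterate n)
    · rw [dense_iff_inter_open]
      intro U hU hne
      obtain ⟨n, z, hz, hz'⟩ := h U V hU hne (hb.isOpen hV)
        (TopologicalSpace.nonempty_of_mem_countableBasis hV)
      exact ⟨z, hz, Set.mem_iUnion.2 ⟨n, hz'⟩⟩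
  obtain ⟨z, hz⟩ := hd.nonempty
  refine ⟨z, ?_⟩
  refine hb.dense_iff.2 fun V hV hne => ?_
  obtain ⟨n, hn⟩ := Set.mem_iUnion.1 (Set.mem_iInter₂.1 hz V hV)
  exact ⟨_, hn, n, rfl⟩

instance : Nonempty X := ⟨x₀⟩

lemma weaklyMixing_T : IsWeaklyMixing T := by
  refine exists_dense_orbit _ (continuous_T.prodMap continuous_T) ?_
  intro U V hU hUne hV hVne
  obtain ⟨⟨a, b⟩, hab⟩ := hUne
  obtain ⟨⟨c, d⟩, hcd⟩ := hVne
  obtain ⟨U₁, U₂, hU₁, hU₂, ha, hb, hUU⟩ := isOpen_prod_iff.1 hU a b hab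
  obtain ⟨V₁, V₂, hV₁, hV₂, hc, hd, hVV⟩ := isOpen_prod_iff.1 hV c d hcd
  obtain ⟨n, z, z', h1, h2, h3, h4⟩ := joint U₁ V₁ U₂ V₂ hU₁ hV₁ hU₂ hV₂ ⟨a, ha⟩ ⟨c, hc⟩ ⟨b, hb⟩
    ⟨d, hd⟩
  refine ⟨n, (z, z'), hUU ⟨h1, h3⟩, ?_⟩
  rw [Prod.map_iterate]
  exact hVV ⟨h2, h4⟩

lemma isOpen_agree (c N : ℕ) : IsOpen {z : X | ∀ i < N, z.1 (c + i) = w i} := by
  have : {z : X | ∀ i < N, z.1 (c + i) = w i} =
      ⋂ i ∈ Finset.range N, (fun z : X => z.1 (c + i)) ⁻¹' {w i} := by
    ext z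
    simp only [Set.mem_iInter, Finset.mem_range]
    rfl
  rw [this]
  refine isOpen_biInter_finset fun i _ => ?_
  exact (isOpen_discrete _).preimage ((continuous_eval (c + i)).comp continuous_subtype_val)

lemma no_partner (y : X) : ¬ IsTransitivePoint (Prod.map T T) (x₀, y) := by
  intro hdense
  have hvisit : ∀ O₁ O₂ : Set X, IsOpen O₁ → IsOpen O₂ → O₁.Nonempty → O₂.Nonempty →
      ∃ n : ℕ, T^[n] x₀ ∈ O₁ ∧ T^[n] y ∈ O₂ := by
    intro O₁ O₂ h1 h2 n1 n2
    obtain ⟨_, hz, n, rfl⟩ := hdense.inter_open_nonempty (O₁ ×ˢ O₂) (h1.prod h2) (n1.prod n2)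
    simp only [Prod.map_iterate] at hz
    exact ⟨n, hz.1, hz.2⟩
  -- a first coincidence
  obtain ⟨n₀, hx, hy⟩ := hvisit {z : X | ∀ i < 1, z.1 (0 + i) = w i} {z : X | ∀ i < 1, z.1 (0 + i) = w i}
    (isOpen_agree 0 1) (isOpen_agree 0 1) ⟨x₀, fun i _ => by rw [Nat.zero_add]; rfl⟩
    ⟨x₀, fun i _ => by rw [Nat.zero_add]; rfl⟩
  have hx0 : w (n₀ + 0) = w 0 := by
    have := hx 0 (by norm_num)
    rwa [T_iter_x₀] at this
  have hy0 : y.1 (n₀ + 0) = w 0 := by
    have := hy 0 (by norm_num)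
    rwa [T_iter] at this
  rw [w_eq, Nat.add_zero] at hx0
  obtain ⟨k', hk'⟩ := hx0.2 inA_zero
  set k := k' + 1 with hkdef
  have hk : BB 0 k n₀ := BB_succ hk'
  have h100 : BB 0 k 100 := by
    have : BB 0 1 100 := ⟨100, 0, Or.inr (Or.inl (by simp [M])), rfl, rfl⟩
    exact BB_mono (by omega) this
  -- two block coincidences
  obtain ⟨n₁, hx1, hy1⟩ := hvisit {z : X | ∀ i < 3 * M k, z.1 (0 + i) = w i}
    {z : X | ∀ i < 3 * M k, z.1 (0 + i) = w i}
    (isOpen_agree 0 _) (isOpen_agree 0 _) ⟨x₀, fun i _ => by rw [Nat.zero_add]; rfl⟩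
    ⟨x₀, fun i _ => by rw [Nat.zero_add]; rfl⟩
  obtain ⟨z₀, hz₀⟩ := surjective_T.iterate 100 x₀
  obtain ⟨n₂, hx2, hy2⟩ := hvisit {z : X | ∀ i < 3 * M k, z.1 (100 + i) = w i}
    {z : X | ∀ i < 3 * M k, z.1 (0 + i) = w i}
    (isOpen_agree 100 _) (isOpen_agree 0 _) ⟨z₀, fun i _ => by
      rw [← T_iter, hz₀]; rfl⟩
    ⟨x₀, fun i _ => by rw [Nat.zero_add]; rfl⟩
  obtain ⟨m, hm⟩ := approx y (n₀ + n₁ + n₂ + 3 * M k + 1)
  have hA0 : InA (m + n₀) := by
    rw [← w_true, hm n₀ (by omega)]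
    rw [Nat.add_zero] at hy0
    rw [hy0, w_true]; exact inA_zero
  have hA1 : ∀ i < 3 * M k, InA i → InA (n₁ + i) := by
    intro i hi h
    have := hx1 i hi
    rw [T_iter_x₀, w_eq, Nat.zero_add] at this
    exact this.2 h
  have hA2 : ∀ i < 3 * M k, InA i → InA (m + n₁ + i) := by
    intro i hi h
    have := hy1 i hi
    rw [T_iter, Nat.zero_add, ← hm (n₁ + i) (by omega), w_eq] at this
    rw [add_assoc]
    exact this.2 h
  have hA3 : ∀ i < 3 * M k, InA i → InA (n₂ + 100 + i) := by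
    intro i hi h
    have := hx2 i hi
    rw [T_iter_x₀, w_eq] at this
    rw [add_assoc]
    exact this.2 h
  have hA4 : ∀ i < 3 * M k, InA i → InA (m + n₂ + i) := by
    intro i hi h
    have := hy2 i hi
    rw [T_iter, Nat.zero_add, ← hm (n₂ + i) (by omega), w_eq] at this
    rw [add_assoc]
    exact this.2 h
  obtain ⟨l₁, b1⟩ := aligned hA1
  obtain ⟨l₂, b2⟩ := aligned hA2
  obtain ⟨l₃, b3⟩ := aligned hA3
  obtain ⟨l₄, b4⟩ := aligned hA4
  obtain ⟨l₀, b0⟩ := hA0
  set L := l₀ + l₁ + l₂ + l₃ + l₄ with hL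
  obtain ⟨C, α, hC, hα, he⟩ := BB_split (k := k) (l := L) (BB_mono (show l₀ ≤ k + L by omega) b0)
  have z0 : BB 0 k 0 := BB_zero_mem 0 k
  have q1 := key L hk hα z0 z0 hC (BB_mono (show l₁ ≤ L by omega) b1)
    (BB_mono (show l₂ ≤ L by omega) b2) (by omega)
  have q2 := key L hk hα z0 h100 hC (BB_mono (show l₃ ≤ L by omega) b3)
    (BB_mono (show l₄ ≤ L by omega) b4) (by omega)
  omega

/-- **Main theorem.** There is a weakly mixing system with a transitive point `x` such that no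
`(x, y)` is a transitive point of the square. -/
theorem result : ∃ (X : Type) (_ : MetricSpace X) (_ : CompactSpace X) (T : X → X),
    (∀ x : X, ¬ IsOpen ({x} : Set X)) ∧ Continuous T ∧ Function.Surjective T ∧
    IsWeaklyMixing T ∧ ∃ x : X, IsTransitivePoint T x ∧
      ∀ y : X, ¬ IsTransitivePoint (Prod.map T T) (x, y) := by
  refine ⟨X, inferInstance, inferInstance, T, no_isolated, continuous_T, surjective_T,
    weaklyMixing_T, x₀, ?_, no_partner⟩
  intro x
  rw [mem_closure_iff]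
  intro U hU hx
  obtain ⟨n, hn⟩ := dense_orbit U hU ⟨x, hx⟩
  exact ⟨_, hn, n, rfl⟩

end Pool.Agent.Results.MP_a8308c_an.NoPartner
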